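import Mathlib
import Pool.Agent.V11103.ErgLebDefs
import Pool.Agent.V11103.HLDefs
import Pool.Agent.V11103.MixMain

set_option autoImplicit false

open Filter Topology MeasureTheory
open scoped ENNReal

namespace Pool.Agent.Results.MP_135240_an.FailsForL1

open Pool.Agent.V11103

/-- There are a metric space `X`, a Borel probability measure `μ` on it with the Hardy–Littlewood
property, a `μ`-preserving map `T` and an integrable `f ≥ 0` such that for `μ`-almost every `x` the
averages `U_{r,k} f(x)` have no finite joint limit as `r ↘ 0`, `k → ∞`. -/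
theorem result : ∃ (X : Type) (_ : MetricSpace X) (_ : MeasurableSpace X) (_ : BorelSpace X)
    (μ : Measure X) (_ : IsProbabilityMeasure μ) (T : X → X) (f : X → ℝ),
    HardyLittlewood μ ∧ MeasurePreserving T μ μ ∧ Integrable f μ ∧ (∀ x, 0 ≤ f x) ∧
      ∀ᵐ x ∂μ, ¬ ∃ L : ℝ,
        Tendsto (fun q : ℝ × ℕ => ballMean μ (timeMean T f q.2) x q.1)
          (𝓝[>] 0 ×ˢ atTop) (𝓝 L) :=
  ⟨Blk, inferInstance, inferInstance, inferInstance, mu, inferInstance, TT, ff,
    hardyLittlewood_ultra blk_ultra, TT_preserving, ff_int, ff_nonneg, mix_no_limit⟩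

end Pool.Agent.Results.MP_135240_an.FailsForL1
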